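import Pool.Agent.Helper35.CL.StA

set_option autoImplicit false

/-!
# CL module GI: the Gauss equation for surfaces
-/

namespace Pool.Agent.Helper24.CL

open Pool.Agent.Helper35.CL Helper32.CL Helper35.PI Helper35.PI2

theorem hGI : StGI := by
  intro N A hA
  have h10 : A 1 0 = A 0 1 := hA 1 0
  have e0 : ∀ v : EE N, ‖v‖ ^ 2 = inner ℝ v v := fun v => (real_inner_self_eq_norm_sq v).symm
  unfold ZZ AAH YY XX zz Hv
  simp only [Fin.sum_univ_two, e0, h10, inner_add_left, inner_add_right]
  rw [real_inner_comm (A 0 0) (A 0 1), real_inner_comm (A 0 0) (A 1 1),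
    real_inner_comm (A 0 1) (A 1 1)]
  ring

end Pool.Agent.Helper24.CL
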