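import Pool.Agent.Helper32.CL.St3

set_option autoImplicit false

/-!
# CL module RD: ancient pinched flows of closed surfaces are round
-/

namespace Pool.Agent.Helper24.CL

open Helper32.CL Helper35.PI Helper35.PI2
open scoped ContDiff Manifold Topology ENNReal BigOperators
open MeasureTheory Set Filter

theorem cs_jets {N : ℕ} (A : Fin 2 → Fin 2 → EE N) :
    ZZ A ≤ XX A * YY A ∧ YY A ^ 2 ≤ 2 * ZZ A := by
  constructor
  · unfold ZZ XX YY zz
    rw [Finset.sum_mul]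
    refine Finset.sum_le_sum fun i _ => ?_
    rw [Finset.sum_mul]
    refine Finset.sum_le_sum fun j _ => ?_
    have h := abs_real_inner_le_norm (A i j) (Hv A)
    rw [← mul_pow, ← sq_abs]
    exact pow_le_pow_left₀ (abs_nonneg _) h 2
  · have h1 : YY A = zz A 0 0 + zz A 1 1 := by
      unfold YY zz
      rw [← inner_add_left, ← real_inner_self_eq_norm_sq]
      congr 1
      unfold Hv
      rw [Fin.sum_univ_two]
    have h2 : ZZ A = zz A 0 0 ^ 2 + zz A 0 1 ^ 2 + (zz A 1 0 ^ 2 + zz A 1 1 ^ 2) := by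
      unfold ZZ
      rw [Fin.sum_univ_two, Fin.sum_univ_two, Fin.sum_univ_two]
    rw [h1, h2]
    nlinarith [sq_nonneg (zz A 0 0 - zz A 1 1), sq_nonneg (zz A 0 1), sq_nonneg (zz A 1 0)]

theorem hRD (hV5 : StV5) (hSQ2 : StSQ2) (hSM : Helper32.CL.StSM) (hOB : StOB) (hFS : StFS)
    (hSG : StSG) (hMD : StMD) (hFN : StFN) : StRD := by
  intro N hN M _ _ _ _ _ _ _ F hF hpin
  obtain ⟨ε, hε, hAA⟩ := hpin
  letI : MeasurableSpace M := borel M
  haveI : BorelSpace M := ⟨rfl⟩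
  haveI : Nonempty M := inferInstance
  obtain ⟨c, χ, hPU⟩ := hV5 2 M
  have hS : Setup 2 F c χ := ⟨hF, hPU⟩
  obtain ⟨a', ha'⟩ := hSM N M F c χ hS
  have hint := hOB (1 / 7200) (fun t => ∫ q, thF 2 F q t ∂muM 2 F c χ t) a' (by norm_num) ha'
    (fun ε' T hε' => by
      obtain ⟨t, h1, _, h3⟩ := hSQ2 N M F c χ hS (5 / 6 - ε) (by linarith) hAA ε' T hε'
      exact ⟨t, h1, h3⟩)
  have hth : ∀ (q : M) (t : ℝ), t < 0 → thF 2 F q t = 0 := by
    intro q t ht
    obtain ⟨h1, h2⟩ := hSG N M F hF t ht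
    exact hFS 2 N M F c χ hS t ht (fun q => thF 2 F q t) h1.continuous (fun q => (h2 q).1)
      (hint t ht) q
  have hXY : ∀ (q : M) (t : ℝ), t < 0 →
      AA (n := 2) F q t = ‖HH (n := 2) F q t‖ ^ 2 / 2 := by
    intro q t ht
    have := hth q t ht
    unfold thF at this
    linarith
  refine ⟨?_, hXY⟩
  refine hFN 2 N le_rfl hN M F hF (3 / 4) (by norm_num) (by norm_num) (by norm_num) ?_ ?_
  · refine ⟨1 / 4, by norm_num, fun p t ht => ?_⟩
    rw [hXY p t ht]
    have := sq_nonneg ‖HH (n := 2) F p t‖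
    linarith
  · intro p t ht
    obtain ⟨A, T, ν, v, _, _, hX, hH, hZ, _⟩ := hMD 2 N M F hF p t ht
    have hxy := hXY p t ht
    obtain ⟨k1, k2⟩ := cs_jets A
    rw [hX, hH] at hxy
    rw [hX, hH, hZ]
    change XX A = YY A / 2 at hxy
    change XX A * YY A = ZZ A
    have e : XX A * YY A = YY A ^ 2 / 2 := by rw [hxy]; ring
    linarith

end Pool.Agent.Helper24.CL
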